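import Pool.Agent.Lib.MP_67d80e_pr_all.CritI
import Pool.Agent.Lib.MP_67d80e_pr_ub.Tab
import Pool.Agent.Lib.MP_67d80e_pr_add.T18
import Pool.Agent.Lib.MP_67d80e_pr_add.T20
import Pool.Agent.Lib.MP_67d80e_pr_add.T22
import Pool.Agent.Lib.MP_67d80e_pr_add.T24
import Pool.Agent.Lib.MP_67d80e_pr_add.T26
import Pool.Agent.Lib.MP_67d80e_pr_add.T28
import Pool.Agent.Lib.MP_67d80e_pr_add.T30
import Pool.Agent.Lib.MP_67d80e_pr_add.T32
import Pool.Agent.Lib.MP_67d80e_pr_add.T36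
import Pool.Agent.Lib.MP_67d80e_pr_add.T40
import Pool.Agent.Lib.MP_67d80e_pr_add.T48
import Pool.Agent.Lib.MP_67d80e_pr_add.T54
import Pool.Agent.Lib.MP_67d80e_pr_add.T68
import Pool.Agent.Lib.MP_67d80e_pr_add.T86
import Pool.Agent.Lib.MP_67d80e_pr_add.T108
import Pool.Agent.Lib.MP_67d80e_pr_add.T136
import Pool.Agent.Lib.MP_67d80e_pr_add.T172
import Pool.Agent.Lib.MP_67d80e_pr_add.T216
import Pool.Agent.Lib.MP_67d80e_pr_add.T270
import Pool.Agent.Lib.MP_67d80e_pr_add.T340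
import Pool.Agent.Lib.MP_67d80e_pr_add.T430
import Pool.Agent.Lib.MP_67d80e_pr_add.T540

/-!
The two conclusions in all dimensions `d ≥ 10`.
-/

set_option autoImplicit false

namespace Pool.Agent.Lib.MP_67d80e_pr_add

open Pool.Agent.Lib.MP_67d80e_pr_all

theorem blk_10 {d : ℕ} (h1 : 10 ≤ d) (h2 : d ≤ 10) : TiltedAll d ∧ SymNotDecor d := by
  obtain ⟨n, rfl⟩ : ∃ n, d = n + 1 := ⟨d - 1, by omega⟩
  exact crit_dir (lb18 (d := n) (by omega)) (lb20 (d := n + 1) (by omega))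
    (Pool.Agent.Lib.MP_67d80e_pr_ub.ub_10 h2) (by norm_num)

theorem blk_11 {d : ℕ} (h1 : 11 ≤ d) (h2 : d ≤ 11) : TiltedAll d ∧ SymNotDecor d := by
  obtain ⟨n, rfl⟩ : ∃ n, d = n + 1 := ⟨d - 1, by omega⟩
  exact crit_dir (lb20 (d := n) (by omega)) (lb22 (d := n + 1) (by omega))
    (Pool.Agent.Lib.MP_67d80e_pr_ub.ub_11 h2) (by norm_num)

theorem blk_12 {d : ℕ} (h1 : 12 ≤ d) (h2 : d ≤ 12) : TiltedAll d ∧ SymNotDecor d := by
  obtain ⟨n, rfl⟩ : ∃ n, d = n + 1 := ⟨d - 1, by omega⟩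
  exact crit_dir (lb22 (d := n) (by omega)) (lb24 (d := n + 1) (by omega))
    (Pool.Agent.Lib.MP_67d80e_pr_ub.ub_12 h2) (by norm_num)

theorem blk_13 {d : ℕ} (h1 : 13 ≤ d) (h2 : d ≤ 13) : TiltedAll d ∧ SymNotDecor d := by
  obtain ⟨n, rfl⟩ : ∃ n, d = n + 1 := ⟨d - 1, by omega⟩
  exact crit_dir (lb24 (d := n) (by omega)) (lb24 (d := n + 1) (by omega))
    (Pool.Agent.Lib.MP_67d80e_pr_ub.ub_13 h2) (by norm_num)

theorem blk_14 {d : ℕ} (h1 : 14 ≤ d) (h2 : d ≤ 14) : TiltedAll d ∧ SymNotDecor d := by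
  obtain ⟨n, rfl⟩ : ∃ n, d = n + 1 := ⟨d - 1, by omega⟩
  exact crit_dir (lb26 (d := n) (by omega)) (lb26 (d := n + 1) (by omega))
    (Pool.Agent.Lib.MP_67d80e_pr_ub.ub_14 h2) (by norm_num)

theorem blk_15 {d : ℕ} (h1 : 15 ≤ d) (h2 : d ≤ 15) : TiltedAll d ∧ SymNotDecor d := by
  obtain ⟨n, rfl⟩ : ∃ n, d = n + 1 := ⟨d - 1, by omega⟩
  exact crit_dir (lb28 (d := n) (by omega)) (lb28 (d := n + 1) (by omega))
    (Pool.Agent.Lib.MP_67d80e_pr_ub.ub_15 h2) (by norm_num)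

theorem blk_16 {d : ℕ} (h1 : 16 ≤ d) (h2 : d ≤ 16) : TiltedAll d ∧ SymNotDecor d := by
  obtain ⟨n, rfl⟩ : ∃ n, d = n + 1 := ⟨d - 1, by omega⟩
  exact crit_dir (lb30 (d := n) (by omega)) (lb30 (d := n + 1) (by omega))
    (Pool.Agent.Lib.MP_67d80e_pr_ub.ub_16 h2) (by norm_num)

theorem blk_17 {d : ℕ} (h1 : 17 ≤ d) (h2 : d ≤ 18) : TiltedAll d ∧ SymNotDecor d := by
  obtain ⟨n, rfl⟩ : ∃ n, d = n + 1 := ⟨d - 1, by omega⟩
  exact crit_dir (lb32 (d := n) (by omega)) (lb32 (d := n + 1) (by omega))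
    (Pool.Agent.Lib.MP_67d80e_pr_ub.ub_18 h2) (by norm_num)

theorem blk_19 {d : ℕ} (h1 : 19 ≤ d) (h2 : d ≤ 20) : TiltedAll d ∧ SymNotDecor d := by
  obtain ⟨n, rfl⟩ : ∃ n, d = n + 1 := ⟨d - 1, by omega⟩
  exact crit_dir (lb36 (d := n) (by omega)) (lb36 (d := n + 1) (by omega))
    (Pool.Agent.Lib.MP_67d80e_pr_ub.ub_20 h2) (by norm_num)

theorem blk_21 {d : ℕ} (h1 : 21 ≤ d) (h2 : d ≤ 24) : TiltedAll d ∧ SymNotDecor d := by
  obtain ⟨n, rfl⟩ : ∃ n, d = n + 1 := ⟨d - 1, by omega⟩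
  exact crit_dir (lb40 (d := n) (by omega)) (lb40 (d := n + 1) (by omega))
    (Pool.Agent.Lib.MP_67d80e_pr_ub.ub_24 h2) (by norm_num)

theorem blk_25 {d : ℕ} (h1 : 25 ≤ d) (h2 : d ≤ 27) : TiltedAll d ∧ SymNotDecor d := by
  obtain ⟨n, rfl⟩ : ∃ n, d = n + 1 := ⟨d - 1, by omega⟩
  exact crit_dir (lb48 (d := n) (by omega)) (lb48 (d := n + 1) (by omega))
    (Pool.Agent.Lib.MP_67d80e_pr_ub.ub_27 h2) (by norm_num)

theorem blk_28 {d : ℕ} (h1 : 28 ≤ d) (h2 : d ≤ 34) : TiltedAll d ∧ SymNotDecor d := by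
  obtain ⟨n, rfl⟩ : ∃ n, d = n + 1 := ⟨d - 1, by omega⟩
  exact crit_dir (lb54 (d := n) (by omega)) (lb54 (d := n + 1) (by omega))
    (Pool.Agent.Lib.MP_67d80e_pr_ub.ub_34 h2) (by norm_num)

theorem blk_35 {d : ℕ} (h1 : 35 ≤ d) (h2 : d ≤ 43) : TiltedAll d ∧ SymNotDecor d := by
  obtain ⟨n, rfl⟩ : ∃ n, d = n + 1 := ⟨d - 1, by omega⟩
  exact crit_dir (lb68 (d := n) (by omega)) (lb68 (d := n + 1) (by omega))
    (Pool.Agent.Lib.MP_67d80e_pr_ub.ub_43 h2) (by norm_num)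

theorem blk_44 {d : ℕ} (h1 : 44 ≤ d) (h2 : d ≤ 54) : TiltedAll d ∧ SymNotDecor d := by
  obtain ⟨n, rfl⟩ : ∃ n, d = n + 1 := ⟨d - 1, by omega⟩
  exact crit_dir (lb86 (d := n) (by omega)) (lb86 (d := n + 1) (by omega))
    (Pool.Agent.Lib.MP_67d80e_pr_ub.ub_54 h2) (by norm_num)

theorem blk_55 {d : ℕ} (h1 : 55 ≤ d) (h2 : d ≤ 68) : TiltedAll d ∧ SymNotDecor d := by
  obtain ⟨n, rfl⟩ : ∃ n, d = n + 1 := ⟨d - 1, by omega⟩
  exact crit_dir (lb108 (d := n) (by omega)) (lb108 (d := n + 1) (by omega))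
    (Pool.Agent.Lib.MP_67d80e_pr_ub.ub_68 h2) (by norm_num)

theorem blk_69 {d : ℕ} (h1 : 69 ≤ d) (h2 : d ≤ 86) : TiltedAll d ∧ SymNotDecor d := by
  obtain ⟨n, rfl⟩ : ∃ n, d = n + 1 := ⟨d - 1, by omega⟩
  exact crit_dir (lb136 (d := n) (by omega)) (lb136 (d := n + 1) (by omega))
    (Pool.Agent.Lib.MP_67d80e_pr_ub.ub_86 h2) (by norm_num)

theorem blk_87 {d : ℕ} (h1 : 87 ≤ d) (h2 : d ≤ 108) : TiltedAll d ∧ SymNotDecor d := by
  obtain ⟨n, rfl⟩ : ∃ n, d = n + 1 := ⟨d - 1, by omega⟩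
  exact crit_dir (lb172 (d := n) (by omega)) (lb172 (d := n + 1) (by omega))
    (Pool.Agent.Lib.MP_67d80e_pr_ub.ub_108 h2) (by norm_num)

theorem blk_109 {d : ℕ} (h1 : 109 ≤ d) (h2 : d ≤ 135) : TiltedAll d ∧ SymNotDecor d := by
  obtain ⟨n, rfl⟩ : ∃ n, d = n + 1 := ⟨d - 1, by omega⟩
  exact crit_dir (lb216 (d := n) (by omega)) (lb216 (d := n + 1) (by omega))
    (Pool.Agent.Lib.MP_67d80e_pr_ub.ub_135 h2) (by norm_num)

theorem blk_136 {d : ℕ} (h1 : 136 ≤ d) (h2 : d ≤ 170) : TiltedAll d ∧ SymNotDecor d := by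
  obtain ⟨n, rfl⟩ : ∃ n, d = n + 1 := ⟨d - 1, by omega⟩
  exact crit_dir (lb270 (d := n) (by omega)) (lb270 (d := n + 1) (by omega))
    (Pool.Agent.Lib.MP_67d80e_pr_ub.ub_170 h2) (by norm_num)

theorem blk_171 {d : ℕ} (h1 : 171 ≤ d) (h2 : d ≤ 215) : TiltedAll d ∧ SymNotDecor d := by
  obtain ⟨n, rfl⟩ : ∃ n, d = n + 1 := ⟨d - 1, by omega⟩
  exact crit_dir (lb340 (d := n) (by omega)) (lb340 (d := n + 1) (by omega))
    (Pool.Agent.Lib.MP_67d80e_pr_ub.ub_215 h2) (by norm_num)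

theorem blk_216 {d : ℕ} (h1 : 216 ≤ d) (h2 : d ≤ 270) : TiltedAll d ∧ SymNotDecor d := by
  obtain ⟨n, rfl⟩ : ∃ n, d = n + 1 := ⟨d - 1, by omega⟩
  exact crit_dir (lb430 (d := n) (by omega)) (lb430 (d := n + 1) (by omega))
    (Pool.Agent.Lib.MP_67d80e_pr_ub.ub_270 h2) (by norm_num)

theorem blk_271 {d : ℕ} (h1 : 271 ≤ d) (h2 : d ≤ 360) : TiltedAll d ∧ SymNotDecor d := by
  obtain ⟨n, rfl⟩ : ∃ n, d = n + 1 := ⟨d - 1, by omega⟩
  exact crit_dir (lb540 (d := n) (by omega)) (lb540 (d := n + 1) (by omega))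
    (Pool.Agent.Lib.MP_67d80e_pr_ub.ub_360 h2) (by norm_num)

/-- all dimensions `d ≥ 10` -/
theorem all_ge_ten {d : ℕ} (hd : 10 ≤ d) : TiltedAll d ∧ SymNotDecor d := by
  rcases Nat.lt_or_ge d 11 with h10 | h10
  · exact blk_10 (by omega) (by omega)
  rcases Nat.lt_or_ge d 12 with h11 | h11
  · exact blk_11 (by omega) (by omega)
  rcases Nat.lt_or_ge d 13 with h12 | h12
  · exact blk_12 (by omega) (by omega)
  rcases Nat.lt_or_ge d 14 with h13 | h13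
  · exact blk_13 (by omega) (by omega)
  rcases Nat.lt_or_ge d 15 with h14 | h14
  · exact blk_14 (by omega) (by omega)
  rcases Nat.lt_or_ge d 16 with h15 | h15
  · exact blk_15 (by omega) (by omega)
  rcases Nat.lt_or_ge d 17 with h16 | h16
  · exact blk_16 (by omega) (by omega)
  rcases Nat.lt_or_ge d 19 with h18 | h18
  · exact blk_17 (by omega) (by omega)
  rcases Nat.lt_or_ge d 21 with h20 | h20
  · exact blk_19 (by omega) (by omega)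
  rcases Nat.lt_or_ge d 25 with h24 | h24
  · exact blk_21 (by omega) (by omega)
  rcases Nat.lt_or_ge d 28 with h27 | h27
  · exact blk_25 (by omega) (by omega)
  rcases Nat.lt_or_ge d 35 with h34 | h34
  · exact blk_28 (by omega) (by omega)
  rcases Nat.lt_or_ge d 44 with h43 | h43
  · exact blk_35 (by omega) (by omega)
  rcases Nat.lt_or_ge d 55 with h54 | h54
  · exact blk_44 (by omega) (by omega)
  rcases Nat.lt_or_ge d 69 with h68 | h68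
  · exact blk_55 (by omega) (by omega)
  rcases Nat.lt_or_ge d 87 with h86 | h86
  · exact blk_69 (by omega) (by omega)
  rcases Nat.lt_or_ge d 109 with h108 | h108
  · exact blk_87 (by omega) (by omega)
  rcases Nat.lt_or_ge d 136 with h135 | h135
  · exact blk_109 (by omega) (by omega)
  rcases Nat.lt_or_ge d 171 with h170 | h170
  · exact blk_136 (by omega) (by omega)
  rcases Nat.lt_or_ge d 216 with h215 | h215
  · exact blk_171 (by omega) (by omega)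
  rcases Nat.lt_or_ge d 271 with h270 | h270
  · exact blk_216 (by omega) (by omega)
  rcases Nat.lt_or_ge d 360 with h360 | h360
  · exact blk_271 (by omega) (by omega)
  exact crit_large h360

end Pool.Agent.Lib.MP_67d80e_pr_add
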